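import Pool.Agent.KS6_56.PP.Fill

/-! The coupling given by the filling scheme. -/

namespace Pool.Agent.KS6_56.PP

open MeasureTheory Filter Topology Set
open scoped ENNReal

variable {S : Type*} [MeasurableSpace S] {θ : S → S} {W : Measure S} {D : S → ℝ≥0∞}

/-- the joint law of the point `z` and of the number of steps -/
noncomputable def joint (W : Measure S) (θ : S → S) (D : S → ℝ≥0∞) : Measure (S × ℕ) :=
  Measure.sum fun n : ℕ => (W.withDensity (rr θ D n)).map fun z => (z, n)

lemma joint_map {T : Type*} [MeasurableSpace T] (g : S × ℕ → T)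
    (hg : ∀ n, Measurable fun z => g (z, n)) {B : Set T} (hB : MeasurableSet B) :
    (joint W θ D).map g B = ∑' n : ℕ, ∫⁻ z in (fun z => g (z, n)) ⁻¹' B, rr θ D n z ∂W := by
  have hgm : Measurable g := measurable_from_prod_countable_left hg
  rw [Measure.map_apply hgm hB, joint, Measure.sum_apply _ (hgm hB)]
  refine tsum_congr fun n => ?_
  have hm : Measurable fun z : S => (z, n) := measurable_id.prodMk measurable_const
  rw [Measure.map_apply hm (hgm hB), withDensity_apply _ (hm (hgm hB))]
  rfl

/-- The first marginal is `W`. -/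
theorem joint_fst [IsProbabilityMeasure W] (hθ : MeasurePreserving θ W W) (hD : Measurable D)
    (hfill : ∀ᵐ z ∂W, ∑' i, rr θ D i z = 1) : (joint W θ D).map Prod.fst = W := by
  ext B hB
  rw [joint_map _ (fun n => measurable_id) hB]
  change ∑' n : ℕ, ∫⁻ z in B, rr θ D n z ∂W = W B
  rw [← lintegral_tsum fun s => (rr_measurable hθ.measurable hD s).aemeasurable,
    lintegral_congr_ae (ae_restrict_of_ae hfill)]
  simp

/-- After the given number of steps the law is `D W`. -/
theorem joint_iterate [IsProbabilityMeasure W] (hθ : MeasurePreserving θ W W) (hD : Measurable D)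
    (hint : ∫⁻ z, D z ∂W = 1) (hfill : ∀ᵐ z ∂W, ∑' i, rr θ D i z = 1) :
    (joint W θ D).map (fun q => θ^[q.2] q.1) = W.withDensity D := by
  have hm := mm_measurable hθ.measurable hD
  have hr := rr_measurable hθ.measurable hD
  have hit : ∀ n, Measurable (θ^[n]) := fun n => hθ.measurable.iterate n
  -- one step
  have hstep : ∀ (B : Set S), MeasurableSet B → ∀ n : ℕ,
      ∫⁻ z in (θ^[n]) ⁻¹' B, rr θ D n z ∂W + ∫⁻ z in (θ^[n + 1]) ⁻¹' B, mm θ D (n + 1) z ∂W =
        ∫⁻ z in (θ^[n]) ⁻¹' B, mm θ D n z ∂W := by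
    intro B hB n
    have h1 : ∫⁻ z in (θ^[n + 1]) ⁻¹' B, mm θ D (n + 1) z ∂W =
        ∫⁻ z in (θ^[n]) ⁻¹' B, (mm θ D n z - rr θ D n z) ∂W := by
      rw [← lintegral_indicator (hit (n + 1) hB), ← lintegral_indicator (hit n hB),
        ← hθ.lintegral_comp
          (f := (θ^[n] ⁻¹' B).indicator fun z => mm θ D n z - rr θ D n z)
          (((hm n).sub (hr n)).indicator (hit n hB))]
      refine lintegral_congr fun z => ?_
      by_cases hz : θ^[n] (θ z) ∈ B
      · rw [indicator_of_mem (show z ∈ θ^[n + 1] ⁻¹' B from hz),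
          indicator_of_mem (show θ z ∈ θ^[n] ⁻¹' B from hz), mm_succ]
      · rw [indicator_of_notMem (show z ∉ θ^[n + 1] ⁻¹' B from hz),
          indicator_of_notMem (show θ z ∉ θ^[n] ⁻¹' B from hz)]
    rw [h1, ← lintegral_add_left (hr n)]
    refine lintegral_congr fun z => ?_
    exact add_tsub_cancel_of_le (min_le_left _ _)
  have hle : (joint W θ D).map (fun q => θ^[q.2] q.1) ≤ W.withDensity D := by
    refine Measure.le_iff.2 fun B hB => ?_
    rw [joint_map _ hit hB, withDensity_apply _ hB, ENNReal.tsum_eq_iSup_nat]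
    refine iSup_le fun n => ?_
    have h2 : ∑ i ∈ Finset.range n, ∫⁻ z in (θ^[i]) ⁻¹' B, rr θ D i z ∂W +
        ∫⁻ z in (θ^[n]) ⁻¹' B, mm θ D n z ∂W = ∫⁻ z in B, D z ∂W := by
      induction n with
      | zero => simp [mm_zero]
      | succ n ih => rw [Finset.sum_range_succ, add_assoc, hstep B hB n, ih]
    rw [← h2]
    exact le_self_add
  have hfin : IsFiniteMeasure (W.withDensity D) := isFiniteMeasure_withDensity (by rw [hint]; simp)
  have hfin' : IsFiniteMeasure ((joint W θ D).map fun q => θ^[q.2] q.1) :=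
    isFiniteMeasure_of_le _ hle
  refine Measure.eq_of_le_of_measure_univ_eq hle ?_
  have h3 : (joint W θ D).map (fun q => θ^[q.2] q.1) univ = (joint W θ D).map Prod.fst univ := by
    rw [joint_map _ hit MeasurableSet.univ, joint_map _ (fun n => measurable_id) MeasurableSet.univ]
    rfl
  rw [h3, joint_fst hθ hD hfill, withDensity_apply _ MeasurableSet.univ, Measure.restrict_univ, hint]
  exact measure_univ

end Pool.Agent.KS6_56.PP
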