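import Mathlib

/-! The filling scheme for an ergodic measure preserving map. -/

namespace Pool.Agent.KS6_56.PP

open MeasureTheory Filter Topology Set
open scoped ENNReal

section
variable {E : Type*}

mutual
/-- mass still waiting -/
noncomputable def mm (θ : E → E) (D : E → ℝ≥0∞) : ℕ → E → ℝ≥0∞
  | 0 => D
  | (s + 1) => fun z => mm θ D s (θ z) - min (mm θ D s (θ z)) (cc θ D s (θ z))
/-- capacity still free -/
noncomputable def cc (θ : E → E) (D : E → ℝ≥0∞) : ℕ → E → ℝ≥0∞
  | 0 => fun _ => 1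
  | (s + 1) => fun z => cc θ D s z - min (mm θ D s z) (cc θ D s z)
end

/-- mass served at distance `s` -/
noncomputable def rr (θ : E → E) (D : E → ℝ≥0∞) (s : ℕ) (z : E) : ℝ≥0∞ :=
  min (mm θ D s z) (cc θ D s z)

variable {θ : E → E} {D : E → ℝ≥0∞}

lemma mm_zero : mm θ D 0 = D := by rw [mm]

lemma cc_zero (z : E) : cc θ D 0 z = 1 := by rw [cc]

lemma mm_succ (s : ℕ) (z : E) : mm θ D (s + 1) z = mm θ D s (θ z) - rr θ D s (θ z) := by
  rw [mm, rr]

lemma cc_succ (s : ℕ) (z : E) : cc θ D (s + 1) z = cc θ D s z - rr θ D s z := by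
  rw [cc, rr]

end

variable {E : Type*} [MeasurableSpace E] {θ : E → E} {D : E → ℝ≥0∞}

lemma mm_cc_measurable (hθ : Measurable θ) (hD : Measurable D) (s : ℕ) :
    Measurable (mm θ D s) ∧ Measurable (cc θ D s) := by
  induction s with
  | zero =>
    refine ⟨by rw [mm_zero]; exact hD, ?_⟩
    have : cc θ D 0 = fun _ => 1 := funext cc_zero
    rw [this]
    exact measurable_const
  | succ s ih =>
    constructor
    · have : mm θ D (s + 1) = fun z => (fun y => mm θ D s y - rr θ D s y) (θ z) :=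
        funext (mm_succ s)
      rw [this]
      exact (ih.1.sub (ih.1.min ih.2)).comp hθ
    · have : cc θ D (s + 1) = fun y => cc θ D s y - rr θ D s y := funext (cc_succ s)
      rw [this]
      exact ih.2.sub (ih.1.min ih.2)

lemma mm_measurable (hθ : Measurable θ) (hD : Measurable D) (s : ℕ) :
    Measurable (mm θ D s) := (mm_cc_measurable hθ hD s).1

lemma cc_measurable (hθ : Measurable θ) (hD : Measurable D) (s : ℕ) :
    Measurable (cc θ D s) := (mm_cc_measurable hθ hD s).2

lemma rr_measurable (hθ : Measurable θ) (hD : Measurable D) (s : ℕ) :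
    Measurable (rr θ D s) := (mm_measurable hθ hD s).min (cc_measurable hθ hD s)

omit [MeasurableSpace E] in
lemma sum_rr_add_cc (s : ℕ) (z : E) :
    ∑ i ∈ Finset.range s, rr θ D i z + cc θ D s z = 1 := by
  induction s with
  | zero => simp [cc_zero]
  | succ s ih =>
    rw [Finset.sum_range_succ, cc_succ, add_assoc,
      add_tsub_cancel_of_le (show rr θ D s z ≤ cc θ D s z from min_le_right _ _), ih]

omit [MeasurableSpace E] in
lemma cc_eq (s : ℕ) (z : E) : cc θ D s z = 1 - ∑ i ∈ Finset.range s, mm θ D i z := by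
  induction s with
  | zero => simp [cc_zero]
  | succ s ih =>
    rw [cc_succ, rr, Finset.sum_range_succ, ← tsub_tsub, ← ih]
    rcases le_total (mm θ D s z) (cc θ D s z) with h | h
    · rw [min_eq_left h]
    · rw [min_eq_right h, tsub_self, tsub_eq_zero_of_le h]

omit [MeasurableSpace E] in
lemma sum_rr (s : ℕ) (z : E) :
    ∑ i ∈ Finset.range s, rr θ D i z = min 1 (∑ i ∈ Finset.range s, mm θ D i z) := by
  have h1 := sum_rr_add_cc (θ := θ) (D := D) s z
  have hne : cc θ D s z ≠ ∞ := by
    intro h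
    rw [h] at h1
    simp at h1
  have h2 : ∑ i ∈ Finset.range s, rr θ D i z = 1 - cc θ D s z :=
    ENNReal.eq_sub_of_add_eq hne h1
  rw [h2, cc_eq]
  set S := ∑ i ∈ Finset.range s, mm θ D i z
  rcases le_total 1 S with h | h
  · rw [min_eq_left h, tsub_eq_zero_of_le h, tsub_zero]
  · rw [min_eq_right h, ENNReal.sub_sub_cancel (by simp) h]

omit [MeasurableSpace E] in
lemma tsum_rr (z : E) : ∑' i, rr θ D i z = min 1 (∑' i, mm θ D i z) := by
  have h1 : Tendsto (fun s => ∑ i ∈ Finset.range s, rr θ D i z) atTop (𝓝 (∑' i, rr θ D i z)) :=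
    ENNReal.tendsto_nat_tsum _
  have h2 : Tendsto (fun s => ∑ i ∈ Finset.range s, mm θ D i z) atTop (𝓝 (∑' i, mm θ D i z)) :=
    ENNReal.tendsto_nat_tsum _
  have h3 : Tendsto (fun s => min 1 (∑ i ∈ Finset.range s, mm θ D i z)) atTop
      (𝓝 (min 1 (∑' i, mm θ D i z))) := tendsto_const_nhds.min h2
  refine tendsto_nhds_unique h1 ?_
  simpa only [sum_rr] using h3

omit [MeasurableSpace E] in
lemma tsum_mm_split (z : E) :
    ∑' i, mm θ D i z = ∑' i, (mm θ D i z - rr θ D i z) + ∑' i, rr θ D i z := by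
  rw [← ENNReal.tsum_add]
  exact tsum_congr fun i => (tsub_add_cancel_of_le (min_le_left _ _)).symm

omit [MeasurableSpace E] in
lemma tsum_mm_head (z : E) :
    ∑' i, mm θ D i z = D z + ∑' i, (mm θ D i (θ z) - rr θ D i (θ z)) := by
  rw [tsum_eq_zero_add' ENNReal.summable, mm_zero]
  simp only [mm_succ]

/-- The filling scheme fills everything, if the mean of `D` over every invariant set is one. -/
theorem tsum_rr_eq_one {μ : Measure E} [IsProbabilityMeasure μ] (hθ : MeasurePreserving θ μ μ)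
    (hD : Measurable D) (hint : ∫⁻ z, D z ∂μ = 1)
    (hcond : ∀ A, MeasurableSet A → θ ⁻¹' A = A → ∫⁻ z in A, D z ∂μ = μ A) :
    ∀ᵐ z ∂μ, ∑' i, rr θ D i z = 1 := by
  have hm := mm_measurable hθ.measurable hD
  have hr := rr_measurable hθ.measurable hD
  set N : E → ℝ≥0∞ := fun z => ∑' i, mm θ D i z with hN
  set G : E → ℝ≥0∞ := fun z => ∑' i, (mm θ D i z - rr θ D i z) with hG
  set R : E → ℝ≥0∞ := fun z => ∑' i, rr θ D i z with hR
  have hNm : Measurable N := Measurable.tsum hm
  have hGm : Measurable G := Measurable.tsum fun i => (hm i).sub (hr i)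
  have hRm : Measurable R := Measurable.tsum hr
  have hDfin : ∀ᵐ z ∂μ, D z < ∞ := ae_lt_top hD (by rw [hint]; simp)
  have hRle : ∀ z, R z ≤ 1 := fun z => by
    rw [hR]; simp only; rw [tsum_rr]; exact min_le_left _ _
  have e1 : ∀ z, N z = G z + R z := tsum_mm_split
  have e2 : ∀ z, N z = D z + G (θ z) := tsum_mm_head
  have e3 : ∀ z, R z = min 1 (N z) := tsum_rr
  have hGN : ∀ z, G z = ∞ ↔ N z = ∞ := by
    intro z
    rw [e1 z]
    constructor
    · intro h; rw [h]; simp
    · intro h
      rcases ENNReal.add_eq_top.1 h with h | h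
      · exact h
      · exact absurd h (ne_top_of_le_ne_top (by simp) (hRle z))
  have hinv : θ ⁻¹' {z | N z = ∞} =ᵐ[μ] {z | N z = ∞} := by
    filter_upwards [hDfin] with z hz
    apply propext
    change N (θ z) = ∞ ↔ N z = ∞
    rw [← hGN (θ z), e2 z]
    constructor
    · intro h; rw [h]; simp
    · intro h
      rcases ENNReal.add_eq_top.1 h with h | h
      · exact absurd h hz.ne
      · exact h
  have hNset : MeasurableSet {z | N z = ∞} := hNm (measurableSet_singleton _)
  obtain ⟨A, hA, hAinv, hAN⟩ : ∃ A, MeasurableSet A ∧ θ ⁻¹' A = A ∧ A =ᵐ[μ] {z | N z = ∞} := by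
    obtain ⟨A, h1, h2, h3⟩ :=
      hθ.quasiMeasurePreserving.exists_preimage_eq_of_preimage_ae hNset.nullMeasurableSet hinv
    exact ⟨A, h1, h3, h2⟩
  have hCinv : θ ⁻¹' Aᶜ = Aᶜ := by rw [preimage_compl, hAinv]
  -- on the complement of `A`
  have hpart : ∀ᵐ z ∂(μ.restrict Aᶜ), R z = 1 := by
    have hθC : MeasurePreserving θ (μ.restrict Aᶜ) (μ.restrict Aᶜ) := by
      have := hθ.restrict_preimage hA.compl
      rwa [hCinv] at this
    have hintC : ∫⁻ z, D z ∂(μ.restrict Aᶜ) = μ.restrict Aᶜ univ := by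
      rw [hcond _ hA.compl hCinv, Measure.restrict_apply MeasurableSet.univ, univ_inter]
    have hfinC : μ.restrict Aᶜ univ ≠ ∞ := measure_ne_top _ _
    have hNfin : ∀ᵐ z ∂(μ.restrict Aᶜ), N z ≠ ∞ := by
      rw [ae_restrict_iff' hA.compl]
      filter_upwards [hAN] with z hz hzA h2
      apply hzA
      have h3 : (z ∈ A) = (z ∈ {z | N z = ∞}) := hz
      rw [h3]
      exact h2
    generalize μ.restrict Aᶜ = μ' at hθC hintC hfinC hNfin
    have hGfin : ∀ᵐ z ∂μ', G z ≠ ∞ := by
      filter_upwards [hNfin] with z hz h2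
      exact hz ((hGN z).1 h2)
    have hfinite : IsFiniteMeasure μ' := ⟨lt_top_iff_ne_top.2 hfinC⟩
    -- key inequality
    have key : ∀ K : ℕ, ∫⁻ z, D z ∂μ' ≤
        ∫⁻ z, R z ∂μ' + ∫⁻ z in {z | (K : ℝ≥0∞) < G z}, D z ∂μ' := by
      intro K
      have hset : MeasurableSet {z | (K : ℝ≥0∞) < G z} := measurableSet_lt measurable_const hGm
      have h1 : ∀ z, D z + min (G (θ z)) K ≤
          min (G z) K + (R z + ({z | (K : ℝ≥0∞) < G z}).indicator D z) := by
        intro z
        by_cases hz : (K : ℝ≥0∞) < G z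
        · rw [indicator_of_mem (show z ∈ {z | (K : ℝ≥0∞) < G z} from hz), min_eq_right hz.le]
          calc D z + min (G (θ z)) K ≤ D z + K := add_le_add le_rfl (min_le_right _ _)
            _ = K + D z := add_comm _ _
            _ ≤ K + (R z + D z) := add_le_add le_rfl le_add_self
        · rw [indicator_of_notMem (show z ∉ {z | (K : ℝ≥0∞) < G z} from hz), add_zero,
            min_eq_left (not_lt.1 hz), ← e1 z, e2 z]
          exact add_le_add le_rfl (min_le_left _ _)
      have h2 := lintegral_mono (μ := μ') h1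
      rw [lintegral_add_left hD, lintegral_add_left (hGm.min measurable_const),
        lintegral_add_left hRm, lintegral_indicator hset] at h2
      have h3 : ∫⁻ z, min (G (θ z)) K ∂μ' = ∫⁻ z, min (G z) K ∂μ' :=
        hθC.lintegral_comp (f := fun z => min (G z) K) (hGm.min measurable_const)
      rw [h3, add_comm (∫⁻ z, D z ∂μ')] at h2
      have h4 : ∫⁻ z, min (G z) K ∂μ' ≠ ∞ := by
        refine ne_top_of_le_ne_top (b := ∫⁻ _, (K : ℝ≥0∞) ∂μ') ?_ ?_
        · rw [lintegral_const]
          exact ENNReal.mul_ne_top (by simp) hfinC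
        · exact lintegral_mono fun z => min_le_right _ _
      exact (ENNReal.add_le_add_iff_left h4).1 h2
    have hlim : Tendsto (fun K : ℕ => ∫⁻ z in {z | (K : ℝ≥0∞) < G z}, D z ∂μ') atTop (𝓝 0) := by
      apply tendsto_setLIntegral_zero (by rw [hintC]; exact hfinC)
      have h0 : μ' (⋂ K : ℕ, {z | (K : ℝ≥0∞) < G z}) = 0 := by
        refine measure_mono_null ?_ (show μ' {z | G z = ∞} = 0 by
          rw [ae_iff] at hGfin; simpa using hGfin)
        intro z hz
        simp only [mem_iInter, mem_ofPred_eq] at hz ⊢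
        by_contra hne
        obtain ⟨n, hn⟩ := ENNReal.exists_nat_gt hne
        exact absurd (hz n) (not_lt.2 hn.le)
      rw [← h0]
      apply tendsto_measure_iInter_atTop
      · intro K
        exact (measurableSet_lt measurable_const hGm).nullMeasurableSet
      · intro a b hab z hz
        simp only [mem_ofPred_eq] at hz ⊢
        exact lt_of_le_of_lt (by exact_mod_cast hab) hz
      · exact ⟨0, measure_ne_top _ _⟩
    have hge : μ' univ ≤ ∫⁻ z, R z ∂μ' := by
      have h5 : Tendsto (fun K : ℕ => ∫⁻ z, R z ∂μ' + ∫⁻ z in {z | (K : ℝ≥0∞) < G z}, D z ∂μ')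
          atTop (𝓝 (∫⁻ z, R z ∂μ' + 0)) := tendsto_const_nhds.add hlim
      rw [add_zero] at h5
      have := ge_of_tendsto' h5 key
      rwa [hintC] at this
    have hsub : ∫⁻ z, (1 - R z) ∂μ' = 0 := by
      have hRi : ∫⁻ z, R z ∂μ' ≤ μ' univ := by
        calc ∫⁻ z, R z ∂μ' ≤ ∫⁻ _, 1 ∂μ' := lintegral_mono hRle
          _ = μ' univ := by simp
      rw [lintegral_sub hRm (ne_top_of_le_ne_top hfinC hRi) (ae_of_all _ hRle)]
      rw [lintegral_one]
      exact tsub_eq_zero_of_le hge
    rw [lintegral_eq_zero_iff (show Measurable (fun z => 1 - R z) from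
      measurable_const.sub hRm)] at hsub
    filter_upwards [hsub] with z hz
    have : 1 - R z = 0 := hz
    exact le_antisymm (hRle z) (tsub_eq_zero_iff_le.1 this)
  rw [ae_restrict_iff' hA.compl] at hpart
  filter_upwards [hpart, hAN] with z hz hz2
  by_cases hzA : z ∈ A
  · have h3 : (z ∈ A) = (z ∈ {z | N z = ∞}) := hz2
    have h4 : N z = ∞ := by
      have : z ∈ {z | N z = ∞} := by rw [← h3]; exact hzA
      exact this
    change R z = 1
    rw [e3 z, h4]
    simp
  · exact hz hzA

end Pool.Agent.KS6_56.PP
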