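import Pool.Agent.KS6_56.PP.Couple

/-! The coupling for an ergodic measure preserving semiflow. -/

namespace Pool.Agent.KS6_56.PP

open MeasureTheory Filter Topology Set
open scoped ENNReal NNReal

/-- the uniform distribution on `(0, 1]` -/
noncomputable def unif : Measure ℝ := volume.restrict (Ioc 0 1)

instance : IsProbabilityMeasure unif := ⟨by simp [unif]⟩

lemma unif_reflect {f : ℝ → ℝ≥0∞} (hf : Measurable f) :
    ∫⁻ u, f (1 - u) ∂unif = ∫⁻ u, f u ∂unif := by
  have h1 : MeasurePreserving (fun u : ℝ => 1 - u) volume volume :=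
    Measure.measurePreserving_sub_left volume 1
  have h2 := h1.restrict_preimage (s := Ico (0 : ℝ) 1) measurableSet_Ico
  have h3 : (fun u : ℝ => 1 - u) ⁻¹' Ico (0 : ℝ) 1 = Ioc 0 1 := by
    ext u
    simp only [mem_preimage, mem_Ico, mem_Ioc]
    constructor <;> intro h <;> constructor <;> linarith [h.1, h.2]
  rw [h3] at h2
  have h4 := h2.lintegral_comp hf
  rw [show (volume.restrict (Ico (0 : ℝ) 1)) = volume.restrict (Ioc 0 1) from
    Measure.restrict_congr_set Ico_ae_eq_Ioc] at h4
  exact h4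

variable {S : Type*} [MeasurableSpace S]

/-- an ergodic measure preserving semiflow -/
structure IsFlow (Θ : ℝ≥0 → S → S) (W : Measure S) : Prop where
  meas : Measurable fun p : ℝ≥0 × S => Θ p.1 p.2
  semi : ∀ s t z, Θ t (Θ s z) = Θ (s + t) z
  inv : ∀ s, W.map (Θ s) = W
  erg : ∀ A, MeasurableSet A → (∀ s, Θ s ⁻¹' A = A) → W A = 0 ∨ W A = 1

variable {Θ : ℝ≥0 → S → S} {W : Measure S} {D : S → ℝ≥0∞}

lemma IsFlow.meas' (h : IsFlow Θ W) : Measurable fun p : S × ℝ => Θ p.2.toNNReal p.1 :=
  h.meas.comp ((measurable_real_toNNReal.comp measurable_snd).prodMk measurable_fst)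

lemma IsFlow.meas₁ (h : IsFlow Θ W) (s : ℝ≥0) : Measurable (Θ s) :=
  h.meas.comp (measurable_const.prodMk measurable_id)

lemma IsFlow.pres (h : IsFlow Θ W) (s : ℝ≥0) : MeasurePreserving (Θ s) W W :=
  ⟨h.meas₁ s, h.inv s⟩

/-- the mean of `D` over the next unit of time -/
noncomputable def mean (Θ : ℝ≥0 → S → S) (D : S → ℝ≥0∞) (z : S) : ℝ≥0∞ :=
  ∫⁻ u, D (Θ u.toNNReal z) ∂unif

lemma IsFlow.measurable_mean (h : IsFlow Θ W) (hD : Measurable D) : Measurable (mean Θ D) :=
  (hD.comp h.meas').lintegral_prod_right'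

lemma IsFlow.swap [SFinite W] (h : IsFlow Θ W) {f : S × ℝ → ℝ≥0∞} (hf : Measurable f) :
    ∫⁻ z, ∫⁻ u, f (z, u) ∂unif ∂W = ∫⁻ u, ∫⁻ z, f (z, u) ∂W ∂unif :=
  lintegral_lintegral_swap hf.aemeasurable

lemma IsFlow.lintegral_mean [SFinite W] (h : IsFlow Θ W) (hD : Measurable D) :
    ∫⁻ z, mean Θ D z ∂W = ∫⁻ z, D z ∂W := by
  have h1 := h.swap (f := fun p => D (Θ p.2.toNNReal p.1)) (hD.comp h.meas')
  unfold mean
  rw [h1]
  have h2 : ∀ u : ℝ, ∫⁻ z, D (Θ u.toNNReal z) ∂W = ∫⁻ z, D z ∂W := fun u =>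
    (h.pres _).lintegral_comp hD
  simp only [h2]
  simp

lemma mem_add (h : IsFlow Θ W) {A : Set S} (hA : Θ 1 ⁻¹' A = A) (r : ℝ≥0) (n : ℕ) (z : S) :
    Θ (r + n) z ∈ A ↔ Θ r z ∈ A := by
  induction n with
  | zero => simp
  | succ n ih =>
    rw [← ih]
    have h1 : Θ (r + (n + 1 : ℕ)) z = Θ 1 (Θ (r + n) z) := by
      rw [h.semi]
      congr 1
      push_cast
      ring
    rw [h1]
    have h2 : Θ 1 (Θ (r + n) z) ∈ A ↔ Θ (r + n) z ∈ Θ 1 ⁻¹' A := Iff.rfl
    rw [h2, hA]

/-- The occupation time of a set invariant under `Θ 1` is invariant under the semiflow. -/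
lemma mean_indicator_flow (h : IsFlow Θ W) {A : Set S} (hA : Θ 1 ⁻¹' A = A) (t : ℝ≥0) (z : S) :
    mean Θ (A.indicator 1) (Θ t z) = mean Θ (A.indicator 1) z := by
  let F : ℝ → ℝ≥0∞ := fun x => A.indicator 1 (Θ (Int.fract x).toNNReal z)
  have hF : ∀ x : ℝ, 0 ≤ x → F x = A.indicator 1 (Θ x.toNNReal z) := by
    intro x hx
    have h1 : x.toNNReal = (Int.fract x).toNNReal + (⌊x⌋₊ : ℝ≥0) := by
      apply NNReal.eq
      rw [NNReal.coe_add, Real.coe_toNNReal _ hx, Real.coe_toNNReal _ (Int.fract_nonneg x),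
        NNReal.coe_natCast]
      have h2 : ((⌊x⌋₊ : ℕ) : ℝ) = (⌊x⌋ : ℝ) := by
        rw [← Int.floor_toNat]
        have : (0 : ℤ) ≤ ⌊x⌋ := Int.floor_nonneg.2 hx
        exact_mod_cast Int.toNat_of_nonneg this
      rw [h2, Int.fract_add_floor]
    have h3 := mem_add h hA (Int.fract x).toNNReal ⌊x⌋₊ z
    rw [← h1] at h3
    simp only [F]
    by_cases hz : Θ x.toNNReal z ∈ A
    · rw [indicator_of_mem hz, indicator_of_mem (h3.1 hz)]
      rfl
    · rw [indicator_of_notMem hz, indicator_of_notMem (fun h' => hz (h3.2 h'))]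
  have hper : ∀ (g : AddSubgroup.zmultiples (1 : ℝ)) (x : ℝ), F (g +ᵥ x) = F x := by
    rintro ⟨g, hg⟩ x
    obtain ⟨n, rfl⟩ := AddSubgroup.mem_zmultiples_iff.1 hg
    have : ((⟨n • (1 : ℝ), hg⟩ : AddSubgroup.zmultiples (1 : ℝ)) +ᵥ x) = x + n := by
      change n • (1 : ℝ) + x = x + n
      simp [add_comm]
    rw [this]
    simp only [F, Int.fract_add_intCast]
  have h1 : mean Θ (A.indicator 1) z = ∫⁻ x in Ioc (0 : ℝ) (0 + 1), F x := by
    rw [mean, unif, zero_add]
    exact setLIntegral_congr_fun measurableSet_Ioc fun x hx => (hF x hx.1.le).symm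
  have h2 : mean Θ (A.indicator 1) (Θ t z) = ∫⁻ x in Ioc (t : ℝ) (t + 1), F x := by
    have h3 : ∫⁻ u in (fun u : ℝ => (t : ℝ) + u) ⁻¹' (Ioc (t : ℝ) (t + 1)), F (t + u) =
        ∫⁻ x in Ioc (t : ℝ) (t + 1), F x :=
      (measurePreserving_add_left volume (t : ℝ)).setLIntegral_comp_preimage_emb
        (measurableEmbedding_addLeft (t : ℝ)) F _
    rw [← h3]
    have h4 : (fun u : ℝ => (t : ℝ) + u) ⁻¹' (Ioc (t : ℝ) (t + 1)) = Ioc 0 1 := by
      rw [preimage_const_add_Ioc]
      simp
    rw [h4, mean, unif]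
    refine setLIntegral_congr_fun measurableSet_Ioc fun u hu => ?_
    rw [hF _ (add_nonneg t.coe_nonneg hu.1.le), h.semi, Real.toNNReal_add t.coe_nonneg hu.1.le,
      Real.toNNReal_coe]
  rw [h1, h2]
  exact (isAddFundamentalDomain_Ioc (zero_lt_one' ℝ) (t : ℝ)).setLIntegral_eq
    (isAddFundamentalDomain_Ioc (zero_lt_one' ℝ) 0) F hper

lemma mean_indicator_const [IsProbabilityMeasure W] (h : IsFlow Θ W) {A : Set S}
    (hAm : MeasurableSet A) (hA : Θ 1 ⁻¹' A = A) :
    ∀ᵐ z ∂W, mean Θ (A.indicator 1) z = W A := by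
  set a : S → ℝ≥0∞ := mean Θ (A.indicator 1) with ha
  have hind : Measurable (A.indicator (1 : S → ℝ≥0∞)) := measurable_one.indicator hAm
  have ham : Measurable a := h.measurable_mean hind
  have hai : ∫⁻ z, a z ∂W = W A := by
    rw [ha, h.lintegral_mean hind, lintegral_indicator_one hAm]
  have hle : ∀ᵐ z ∂W, ∀ q : ℚ, ENNReal.ofReal q < W A → ENNReal.ofReal q < a z := by
    rw [ae_all_iff]
    intro q
    by_cases hq : ENNReal.ofReal q < W A
    · have hset : MeasurableSet {z | ENNReal.ofReal q < a z} := measurableSet_lt measurable_const ham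
      have h01 := h.erg _ hset (fun s => by
        ext z
        simp only [mem_preimage, mem_ofPred_eq]
        rw [ha, mean_indicator_flow h hA])
      rcases h01 with h0 | h0
      · exfalso
        have h2 : ∀ᵐ z ∂W, a z ≤ ENNReal.ofReal q := by
          rw [ae_iff]
          simpa using h0
        have h3 := lintegral_mono_ae h2
        rw [hai] at h3
        simp only [lintegral_const, measure_univ, mul_one] at h3
        exact absurd hq (not_lt.2 h3)
      · have h2 : ∀ᵐ z ∂W, z ∈ {z | ENNReal.ofReal q < a z} :=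
          (prob_compl_eq_zero_iff hset).2 h0
        filter_upwards [h2] with z hz _
        exact hz
    · exact ae_of_all _ fun z h' => absurd h' hq
  have hle' : ∀ᵐ z ∂W, W A ≤ a z := by
    filter_upwards [hle] with z hz
    by_contra hlt
    rw [not_le] at hlt
    obtain ⟨q, hq0, hq1, hq2⟩ := ENNReal.lt_iff_exists_rat_btwn.1 hlt
    exact absurd (hz q hq2) (not_lt.2 hq1.le)
  have := ae_eq_of_ae_le_of_lintegral_le (μ := W) (f := fun _ => W A) (g := a) hle'
    (by simp) ham.aemeasurable (by rw [hai]; simp)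
  filter_upwards [this] with z hz
  exact hz.symm

/-- The mean of `D` over one unit of time has mean one over every set invariant under `Θ 1`. -/
lemma mean_cond [IsProbabilityMeasure W] (h : IsFlow Θ W) (hD : Measurable D)
    (hint : ∫⁻ z, D z ∂W = 1) {A : Set S} (hAm : MeasurableSet A) (hA : Θ 1 ⁻¹' A = A) :
    ∫⁻ z in A, mean Θ D z ∂W = W A := by
  have hind : Measurable (A.indicator (1 : S → ℝ≥0∞)) := measurable_one.indicator hAm
  have h1 : ∫⁻ z in A, mean Θ D z ∂W =
      ∫⁻ z, ∫⁻ u, A.indicator 1 z * D (Θ u.toNNReal z) ∂unif ∂W := by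
    rw [← lintegral_indicator hAm]
    refine lintegral_congr fun z => ?_
    have hm0 : Measurable fun u : ℝ => D (Θ u.toNNReal z) :=
      hD.comp (h.meas'.comp (measurable_const.prodMk measurable_id))
    rw [lintegral_const_mul _ hm0]
    by_cases hz : z ∈ A
    · rw [indicator_of_mem hz, indicator_of_mem hz, Pi.one_apply, one_mul]
      rfl
    · rw [indicator_of_notMem hz, indicator_of_notMem hz, zero_mul]
  have h2 := h.swap (f := fun p => A.indicator 1 p.1 * D (Θ p.2.toNNReal p.1))
    ((hind.comp measurable_fst).mul (hD.comp h.meas'))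
  rw [h1, h2]
  have h3 : ∫⁻ u, ∫⁻ z, A.indicator 1 z * D (Θ u.toNNReal z) ∂W ∂unif =
      ∫⁻ u, ∫⁻ y, A.indicator 1 (Θ (1 - u).toNNReal y) * D y ∂W ∂unif := by
    refine setLIntegral_congr_fun measurableSet_Ioc fun u hu => ?_
    rw [← (h.pres u.toNNReal).lintegral_comp
      (f := fun y => A.indicator 1 (Θ (1 - u).toNNReal y) * D y)
      ((hind.comp (h.meas₁ _)).mul hD)]
    refine lintegral_congr fun z => ?_
    have h4 : Θ (1 - u).toNNReal (Θ u.toNNReal z) = Θ 1 z := by
      rw [h.semi, ← Real.toNNReal_add hu.1.le (by linarith [hu.2])]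
      simp
    rw [h4]
    congr 1
    by_cases hz : z ∈ A
    · have hz' : Θ 1 z ∈ A := by
        have : z ∈ Θ 1 ⁻¹' A := by rw [hA]; exact hz
        exact this
      rw [indicator_of_mem hz, indicator_of_mem hz']
      rfl
    · have hz' : Θ 1 z ∉ A := by
        intro h'
        have : z ∈ Θ 1 ⁻¹' A := h'
        rw [hA] at this
        exact hz this
      rw [indicator_of_notMem hz, indicator_of_notMem hz']
  rw [h3]
  have hmr : Measurable fun p : S × ℝ => Θ (1 - p.2).toNNReal p.1 :=
    h.meas'.comp (measurable_fst.prodMk (measurable_const.sub measurable_snd))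
  have h5 := h.swap (f := fun p => A.indicator 1 (Θ (1 - p.2).toNNReal p.1) * D p.1)
    ((hind.comp hmr).mul (hD.comp measurable_fst))
  rw [← h5]
  have h6 : ∀ᵐ z ∂W, ∫⁻ u, A.indicator 1 (Θ (1 - u).toNNReal z) * D z ∂unif = W A * D z := by
    filter_upwards [mean_indicator_const h hAm hA] with z hz
    have hm1 : Measurable fun u : ℝ => A.indicator (1 : S → ℝ≥0∞) (Θ u.toNNReal z) :=
      hind.comp (h.meas'.comp (measurable_const.prodMk measurable_id))
    have hm2 : Measurable fun u : ℝ => A.indicator (1 : S → ℝ≥0∞) (Θ (1 - u).toNNReal z) :=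
      hm1.comp (measurable_const.sub measurable_id)
    rw [lintegral_mul_const _ hm2,
      unif_reflect (f := fun u => A.indicator (1 : S → ℝ≥0∞) (Θ u.toNNReal z)) hm1]
    congr 1
  rw [lintegral_congr_ae h6, lintegral_const_mul _ hD, hint, mul_one]

/-- **The coupling.** There is a joint law of a point `z` and a time `T` such that `z` has the law
`W` and `Θ T z` has the law `D W`. -/
theorem flow_coupling [IsProbabilityMeasure W] (h : IsFlow Θ W) (hD : Measurable D)
    (hint : ∫⁻ z, D z ∂W = 1) :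
    ∃ ν : Measure (S × ℝ≥0), ν.map Prod.fst = W ∧
      ν.map (fun q => Θ q.2 q.1) = W.withDensity D := by
  classical
  set Db : S → ℝ≥0∞ := mean Θ D with hDb
  have hDbm : Measurable Db := h.measurable_mean hD
  have hDbint : ∫⁻ z, Db z ∂W = 1 := by rw [hDb, h.lintegral_mean hD, hint]
  have hfill : ∀ᵐ z ∂W, ∑' i, rr (Θ 1) Db i z = 1 :=
    tsum_rr_eq_one (h.pres 1) hDbm hDbint fun A hA hA' => mean_cond h hD hint hA hA'
  set J : Measure (S × ℕ) := joint W (Θ 1) Db with hJ
  have hJ1 : J.map Prod.fst = W := joint_fst (h.pres 1) hDbm hfill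
  have hJ2 : J.map (fun q => (Θ 1)^[q.2] q.1) = W.withDensity Db :=
    joint_iterate (h.pres 1) hDbm hDbint hfill
  have hJp : IsProbabilityMeasure J := by
    refine ⟨?_⟩
    have : J.map Prod.fst univ = 1 := by rw [hJ1]; exact measure_univ
    rwa [Measure.map_apply measurable_fst MeasurableSet.univ, preimage_univ] at this
  -- the point after the integer number of steps
  have hitm : Measurable fun q : S × ℕ => (Θ 1)^[q.2] q.1 :=
    measurable_from_prod_countable_left fun n => (h.meas₁ 1).iterate n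
  -- conditional density of the remaining time
  set kk : S × ℝ → ℝ≥0∞ := fun p =>
    if Db p.1 = 0 ∨ Db p.1 = ∞ then 1 else D (Θ p.2.toNNReal p.1) / Db p.1 with hkk
  have hkkm : Measurable kk := by
    refine Measurable.ite ?_ measurable_const ((hD.comp h.meas').div (hDbm.comp measurable_fst))
    exact ((hDbm.comp measurable_fst) (measurableSet_singleton 0)).union
      ((hDbm.comp measurable_fst) (measurableSet_singleton ∞))
  have hDu : ∀ z, Measurable fun u : ℝ => D (Θ u.toNNReal z) := fun z =>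
    hD.comp (h.meas'.comp (measurable_const.prodMk measurable_id))
  have hkk1 : ∀ z, ∫⁻ u, kk (z, u) ∂unif = 1 := by
    intro z
    by_cases hz : Db z = 0 ∨ Db z = ∞
    · simp only [hkk, if_pos hz]
      simp
    · simp only [hkk, if_neg hz]
      rw [not_or] at hz
      simp only [ENNReal.div_eq_inv_mul]
      rw [lintegral_const_mul _ (hDu z)]
      exact ENNReal.inv_mul_cancel hz.1 hz.2
  let g : (S × ℕ) × ℝ → S × ℝ := fun p => ((Θ 1)^[p.1.2] p.1.1, p.2)
  have hg : Measurable g := (hitm.comp measurable_fst).prodMk measurable_snd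
  let κ : Measure ((S × ℕ) × ℝ) := (J.prod unif).withDensity fun p => kk (g p)
  let e : (S × ℕ) × ℝ → S × ℝ≥0 := fun p => (p.1.1, (p.1.2 : ℝ≥0) + p.2.toNNReal)
  have he : Measurable e := by
    refine (measurable_fst.comp measurable_fst).prodMk ?_
    refine Measurable.add ?_ (measurable_real_toNNReal.comp measurable_snd)
    exact (measurable_of_countable (fun n : ℕ => (n : ℝ≥0))).comp
      (measurable_snd.comp measurable_fst)
  -- integrals with respect to `κ`
  have hκ : ∀ {B : Set ((S × ℕ) × ℝ)}, MeasurableSet B → κ B =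
      ∫⁻ q, ∫⁻ u, B.indicator 1 (q, u) * kk ((Θ 1)^[q.2] q.1, u) ∂unif ∂J := by
    intro B hB
    change (J.prod unif).withDensity (fun p => kk (g p)) B = _
    have hm4 : Measurable (B.indicator fun p => kk (g p)) := (hkkm.comp hg).indicator hB
    rw [withDensity_apply _ hB, ← lintegral_indicator hB, lintegral_prod _ hm4.aemeasurable]
    refine lintegral_congr fun q => lintegral_congr fun u => ?_
    by_cases hq : (q, u) ∈ B
    · rw [indicator_of_mem hq, indicator_of_mem hq, Pi.one_apply, one_mul]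
    · rw [indicator_of_notMem hq, indicator_of_notMem hq, zero_mul]
  refine ⟨κ.map e, ?_, ?_⟩
  · ext B hB
    rw [Measure.map_map measurable_fst he, Measure.map_apply (measurable_fst.comp he) hB,
      hκ ((measurable_fst.comp he) hB)]
    have h1 : ∀ q : S × ℕ, ∫⁻ u, ((Prod.fst ∘ e) ⁻¹' B).indicator 1 (q, u) *
        kk ((Θ 1)^[q.2] q.1, u) ∂unif = (Prod.fst ⁻¹' B).indicator 1 q := by
      intro q
      by_cases hq : q.1 ∈ B
      · have h2 : ∀ u : ℝ, ((Prod.fst ∘ e) ⁻¹' B).indicator (1 : (S × ℕ) × ℝ → ℝ≥0∞) (q, u) = 1 :=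
          fun u => indicator_of_mem (show (q, u) ∈ (Prod.fst ∘ e) ⁻¹' B from hq) _
        simp only [h2, one_mul, hkk1]
        rw [indicator_of_mem (show q ∈ Prod.fst ⁻¹' B from hq)]
        rfl
      · have h2 : ∀ u : ℝ, ((Prod.fst ∘ e) ⁻¹' B).indicator (1 : (S × ℕ) × ℝ → ℝ≥0∞) (q, u) = 0 :=
          fun u => indicator_of_notMem (show (q, u) ∉ (Prod.fst ∘ e) ⁻¹' B from hq) _
        simp only [h2, zero_mul]
        rw [indicator_of_notMem (show q ∉ Prod.fst ⁻¹' B from hq)]
        simp
    simp only [h1]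
    rw [lintegral_indicator_one (measurable_fst hB), ← Measure.map_apply measurable_fst hB, hJ1]
  · ext B hB
    have hΘ2 : Measurable fun q : S × ℝ≥0 => Θ q.2 q.1 :=
      h.meas.comp (measurable_snd.prodMk measurable_fst)
    have hindB : Measurable (B.indicator (1 : S → ℝ≥0∞)) := measurable_one.indicator hB
    rw [Measure.map_map hΘ2 he, Measure.map_apply (hΘ2.comp he) hB, hκ ((hΘ2.comp he) hB)]
    have hit : ∀ (n : ℕ) (u : ℝ≥0) (z : S), Θ u ((Θ 1)^[n] z) = Θ ((n : ℝ≥0) + u) z := by
      intro n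
      induction n with
      | zero => intro u z; simp
      | succ n ih =>
        intro u z
        rw [Function.iterate_succ_apply', h.semi, ih]
        congr 1
        push_cast
        ring
    have h1 : ∀ q : S × ℕ, ∫⁻ u, (((fun q : S × ℝ≥0 => Θ q.2 q.1) ∘ e) ⁻¹' B).indicator 1 (q, u) *
        kk ((Θ 1)^[q.2] q.1, u) ∂unif =
        (fun z => ∫⁻ u, B.indicator 1 (Θ u.toNNReal z) * kk (z, u) ∂unif)
          ((Θ 1)^[q.2] q.1) := by
      intro q
      refine lintegral_congr fun u => ?_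
      congr 1
      rw [hit]
      rfl
    have hm2 : Measurable fun z => ∫⁻ u, B.indicator 1 (Θ u.toNNReal z) * kk (z, u) ∂unif :=
      Measurable.lintegral_prod_right' (f := fun p : S × ℝ =>
        B.indicator 1 (Θ p.2.toNNReal p.1) * kk p) ((hindB.comp h.meas').mul hkkm)
    simp only [h1]
    rw [← lintegral_map hm2 hitm, hJ2, lintegral_withDensity_eq_lintegral_mul _ hDbm hm2,
      withDensity_apply _ hB]
    have hfin : ∀ᵐ z ∂W, Db z < ∞ := ae_lt_top hDbm (by rw [hDbint]; simp)
    have h2 : ∀ᵐ z ∂W, (Db * fun z => ∫⁻ u, B.indicator 1 (Θ u.toNNReal z) * kk (z, u) ∂unif) z =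
        mean Θ (B.indicator D) z := by
      filter_upwards [hfin] with z hz
      simp only [Pi.mul_apply, mean]
      have h3 : ∀ y, B.indicator D y = B.indicator 1 y * D y := by
        intro y
        by_cases hy : y ∈ B
        · rw [indicator_of_mem hy, indicator_of_mem hy, Pi.one_apply, one_mul]
        · rw [indicator_of_notMem hy, indicator_of_notMem hy, zero_mul]
      simp only [h3]
      have hm3 : Measurable fun u : ℝ => B.indicator (1 : S → ℝ≥0∞) (Θ u.toNNReal z) :=
        hindB.comp (h.meas'.comp (measurable_const.prodMk measurable_id))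
      by_cases h0 : Db z = 0
      · rw [h0, zero_mul]
        symm
        have h4 : ∫⁻ u, B.indicator 1 (Θ u.toNNReal z) * D (Θ u.toNNReal z) ∂unif ≤ Db z := by
          refine lintegral_mono fun u => ?_
          refine mul_le_of_le_one_left (by positivity) ?_
          exact indicator_le_self' (fun _ _ => zero_le) _ |>.trans le_rfl
        rw [h0] at h4
        exact le_antisymm h4 zero_le
      · have h5 : ¬ (Db z = 0 ∨ Db z = ∞) := by
          rw [not_or]
          exact ⟨h0, hz.ne⟩
        simp only [hkk, if_neg h5]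
        have hm5 : Measurable fun u : ℝ => B.indicator (1 : S → ℝ≥0∞) (Θ u.toNNReal z) *
            (D (Θ u.toNNReal z) / Db z) := hm3.mul ((hDu z).div_const _)
        rw [← lintegral_const_mul _ hm5]
        refine lintegral_congr fun u => ?_
        rw [mul_left_comm, ENNReal.mul_div_cancel h0 hz.ne]
    rw [lintegral_congr_ae h2, h.lintegral_mean (hD.indicator hB), lintegral_indicator hB]

end Pool.Agent.KS6_56.PP
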