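import Pool.Agent.KS6_56.PP.Path

/-! Stationary independent increments imply ergodicity of the shift; Brownian motion in several
dimensions. -/

namespace Pool.Agent.KS6_56.PP

open MeasureTheory ProbabilityTheory Filter Topology Set
open scoped ENNReal NNReal

section general

variable {E : Type*} [NormedAddCommGroup E] [MeasurableSpace E] [BorelSpace E]
  [SecondCountableTopology E] {W : Measure C(ℝ≥0, E)}

/-- the restriction of a path to `[0, n]` -/
def restr (n : ℝ≥0) (w : C(ℝ≥0, E)) (t : Iic n) : E := w t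

omit [MeasurableSpace E] [BorelSpace E] [SecondCountableTopology E] in
lemma preimage_shift {A : Set C(ℝ≥0, E)} (hA : shift 1 ⁻¹' A = A) (n : ℕ) :
    shift (n + 1 : ℕ) ⁻¹' A = A := by
  induction n with
  | zero => simpa using hA
  | succ n ih =>
    have h1 : shift (n + 1 + 1 : ℕ) ⁻¹' A = shift 1 ⁻¹' (shift (n + 1 : ℕ) ⁻¹' A) := by
      ext w
      simp only [mem_preimage]
      rw [shift_shift]
      congr! 2
      push_cast
      ring
    rw [h1, ih, hA]

theorem ergodic_of_indep [IsProbabilityMeasure W] (hmap : W.map (shift 1) = W)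
    (hfut : ∀ n : ℕ, IndepFun (fun w : C(ℝ≥0, E) => ev (shift (n + 1 : ℕ) w))
      (restr (n + 1 : ℕ)) W) : Ergodic (shift 1) W := by
  refine ⟨⟨measurable_shift 1, hmap⟩, ⟨fun A hA hAinv => ?_⟩⟩
  -- A is independent of every finite window
  have hind : ∀ n : ℕ, Indep (MeasurableSpace.comap (restr (n + 1 : ℕ)) MeasurableSpace.pi)
      (MeasurableSpace.generateFrom {A}) W := by
    intro n
    have h1 := (hfut n).symm
    rw [IndepFun_iff_Indep] at h1
    refine indep_of_indep_of_le_right h1 ?_
    apply MeasurableSpace.generateFrom_le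
    rintro B hB
    rw [mem_singleton_iff] at hB
    subst hB
    have hB1 : MeasurableSet[MeasurableSpace.comap (ev : C(ℝ≥0, E) → ℝ≥0 → E)
        MeasurableSpace.pi] B := by
      rw [← measurableSpace_eq_comap]; exact hA
    obtain ⟨B', hB'm, hB'⟩ := hB1
    refine ⟨B', hB'm, ?_⟩
    rw [← preimage_shift hAinv n, ← hB']
    rfl
  have hmono : Monotone (fun n : ℕ =>
      MeasurableSpace.comap (restr (E := E) (n + 1 : ℕ)) MeasurableSpace.pi) := by
    intro a b hab
    have hab' : ((a + 1 : ℕ) : ℝ≥0) ≤ ((b + 1 : ℕ) : ℝ≥0) := by exact_mod_cast Nat.succ_le_succ hab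
    have : restr (E := E) (a + 1 : ℕ) = (fun (f : Iic ((b + 1 : ℕ) : ℝ≥0) → E)
        (t : Iic ((a + 1 : ℕ) : ℝ≥0)) => f ⟨t.1, t.2.trans hab'⟩) ∘ restr (b + 1 : ℕ) := rfl
    simp only
    rw [this, ← MeasurableSpace.comap_comp]
    apply MeasurableSpace.comap_mono
    apply measurable_iff_comap_le.1
    exact measurable_pi_lambda _ fun t => measurable_pi_apply _
  have hle : ∀ n : ℕ, MeasurableSpace.comap (restr (E := E) (n + 1 : ℕ)) MeasurableSpace.pi ≤
      pathMeasurableSpace := by
    intro n
    apply measurable_iff_comap_le.1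
    exact measurable_pi_lambda _ fun t => measurable_eval _
  have hgle : MeasurableSpace.generateFrom {A} ≤ pathMeasurableSpace := by
    apply MeasurableSpace.generateFrom_le
    rintro B hB
    rw [mem_singleton_iff] at hB
    subst hB
    exact hA
  have hsup := indep_iSup_of_monotone hind hle hgle hmono
  have hfull : (pathMeasurableSpace : MeasurableSpace C(ℝ≥0, E)) ≤
      ⨆ n : ℕ, MeasurableSpace.comap (restr (n + 1 : ℕ)) MeasurableSpace.pi := by
    rw [measurableSpace_eq_comap]
    apply measurable_iff_comap_le.1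
    refine @measurable_pi_lambda _ _ _ (_) _ _ fun t => ?_
    obtain ⟨n, hn⟩ := exists_nat_ge t
    have hn' : t ≤ ((n + 1 : ℕ) : ℝ≥0) := hn.trans (by exact_mod_cast Nat.le_succ n)
    have h1 : Measurable[MeasurableSpace.comap (restr (n + 1 : ℕ)) MeasurableSpace.pi]
        (fun w : C(ℝ≥0, E) => w t) := by
      have : (fun w : C(ℝ≥0, E) => w t) =
          (fun f : Iic ((n + 1 : ℕ) : ℝ≥0) → E => f ⟨t, hn'⟩) ∘ restr (n + 1 : ℕ) := rfl
      rw [this]
      exact (measurable_pi_apply _).comp (comap_measurable _)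
    exact h1.mono (le_iSup (fun n : ℕ =>
      MeasurableSpace.comap (restr (n + 1 : ℕ)) MeasurableSpace.pi) n) le_rfl
  have hself : IndepSet A A W := by
    refine indep_of_indep_of_le_left hsup ?_
    exact hgle.trans hfull
  have h01 := measure_eq_zero_or_one_of_indepSet_self hself
  rw [eventuallyConst_set']
  rcases h01 with h | h
  · left
    exact ae_eq_empty.2 h
  · right
    rw [ae_eq_univ]
    exact (prob_compl_eq_zero_iff hA).2 h

/-- Two laws on the path space agree if the laws of all evaluations agree. -/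
lemma eq_of_map_ev {W₁ W₂ : Measure C(ℝ≥0, E)} (h : W₁.map ev = W₂.map ev) : W₁ = W₂ := by
  ext B hB
  have hB' : MeasurableSet[MeasurableSpace.comap (ev : C(ℝ≥0, E) → ℝ≥0 → E)
      MeasurableSpace.pi] B := by
    rw [← measurableSpace_eq_comap]; exact hB
  obtain ⟨B', hB'm, rfl⟩ := hB'
  rw [← Measure.map_apply measurable_ev hB'm, ← Measure.map_apply measurable_ev hB'm, h]

end general

section brownian

variable {ι : Type*} [Fintype ι] {W : Measure C(ℝ≥0, ι → ℝ)}

/-- the `i`-th coordinate of a path in `ℝ^ι` -/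
def coordPath (i : ι) (w : C(ℝ≥0, ι → ℝ)) (t : ℝ≥0) : ℝ := w t i

lemma measurable_coordPath (i : ι) : Measurable (coordPath i : C(ℝ≥0, ι → ℝ) → ℝ≥0 → ℝ) :=
  measurable_pi_lambda _ fun t => (measurable_pi_apply i).comp (measurable_eval t)

/-- `W` is the law of a Brownian motion in `ℝ^ι`: the coordinates are independent standard
one-dimensional Brownian motions. -/
def IsBrownianVec (W : Measure C(ℝ≥0, ι → ℝ)) : Prop :=
  (∀ i, IsBrownianReal (fun (t : ℝ≥0) (w : C(ℝ≥0, ι → ℝ)) => w t i) W) ∧
    iIndepFun (coordPath : ι → C(ℝ≥0, ι → ℝ) → ℝ≥0 → ℝ) W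

lemma isPre (hW : IsBrownianVec W) (i : ι) :
    IsPreBrownianReal (fun (t : ℝ≥0) (w : C(ℝ≥0, ι → ℝ)) => w t i) W := (hW.1 i).toIsPreBrownianReal

/-- the law of the evaluations of a Brownian coordinate -/
lemma map_coord_unique {W₁ W₂ : Measure C(ℝ≥0, ι → ℝ)}
    {X₁ X₂ : ℝ≥0 → C(ℝ≥0, ι → ℝ) → ℝ}
    (hm₁ : ∀ t, Measurable (X₁ t)) (hm₂ : ∀ t, Measurable (X₂ t))
    (h₁ : IsPreBrownianReal X₁ W₁) (h₂ : IsPreBrownianReal X₂ W₂) :
    W₁.map (fun w t => X₁ t w) = W₂.map (fun w t => X₂ t w) := by
  have hP₁ : IsProbabilityMeasure W₁ := h₁.isGaussianProcess.isProbabilityMeasure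
  have hP₂ : IsProbabilityMeasure W₂ := h₂.isGaussianProcess.isProbabilityMeasure
  have m1 : Measurable (fun w t => X₁ t w) := measurable_pi_lambda _ hm₁
  have m2 : Measurable (fun w t => X₂ t w) := measurable_pi_lambda _ hm₂
  have e1 : IsProjectiveLimit (W₁.map (fun w t => X₁ t w)) BrownianReal.projectiveFamily := by
    intro I
    rw [Measure.map_map (by fun_prop) m1]
    exact (h₁.hasLaw I).map_eq
  have e2 : IsProjectiveLimit (W₂.map (fun w t => X₂ t w)) BrownianReal.projectiveFamily := by
    intro I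
    rw [Measure.map_map (by fun_prop) m2]
    exact (h₂.hasLaw I).map_eq
  exact e1.unique e2

/-- the coordinate processes of `ℝ^ι`-valued paths, the coordinate first -/
def coordAll (w : C(ℝ≥0, ι → ℝ)) (i : ι) : ℝ≥0 → ℝ := coordPath i w

lemma isProb [Nonempty ι] (hW : IsBrownianVec W) : IsProbabilityMeasure W :=
  (isPre hW (Classical.arbitrary ι)).isGaussianProcess.isProbabilityMeasure

theorem map_shift_vec [Nonempty ι] (hW : IsBrownianVec W) (s : ℝ≥0) : W.map (shift s) = W := by
  have hWp := isProb hW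
  apply eq_of_map_ev
  rw [Measure.map_map measurable_ev (measurable_shift s)]
  -- the shifted coordinates
  let g : ι → (ℝ≥0 → ℝ) → ℝ≥0 → ℝ := fun _ f t => f (s + t) - f s
  have hg : ∀ i, Measurable (g i) := fun i => measurable_pi_lambda _ fun t =>
    (measurable_pi_apply _).sub (measurable_pi_apply _)
  have hind2 : iIndepFun (fun i => g i ∘ (coordPath i : C(ℝ≥0, ι → ℝ) → ℝ≥0 → ℝ)) W :=
    hW.2.comp g hg
  have h1 := (iIndepFun_iff_map_fun_eq_pi_map
    (fun i => (measurable_coordPath i).aemeasurable)).1 hW.2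
  have h2 := (iIndepFun_iff_map_fun_eq_pi_map
    (fun i => ((hg i).comp (measurable_coordPath i)).aemeasurable)).1 hind2
  have h3 : ∀ i, W.map (g i ∘ coordPath i) = W.map (coordPath i) := fun i =>
    map_coord_unique (W₁ := W) (W₂ := W)
      (X₁ := fun t (w : C(ℝ≥0, ι → ℝ)) => w (s + t) i - w s i) (X₂ := fun t w => w t i)
      (fun t => ((measurable_pi_apply i).comp (measurable_eval _)).sub
        ((measurable_pi_apply i).comp (measurable_eval _)))
      (fun t => (measurable_pi_apply i).comp (measurable_eval _))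
      ((isPre hW i).shift s) (isPre hW i)
  simp only [h3] at h2
  rw [← h1] at h2
  -- swap the coordinates and the times
  have hsw : Measurable fun (f : ι → ℝ≥0 → ℝ) (t : ℝ≥0) (i : ι) => f i t :=
    measurable_pi_lambda _ fun t => measurable_pi_lambda _ fun i =>
      (measurable_pi_apply t).comp (measurable_pi_apply i)
  have h4 := congrArg (Measure.map fun (f : ι → ℝ≥0 → ℝ) (t : ℝ≥0) (i : ι) => f i t) h2
  rw [Measure.map_map hsw (measurable_pi_lambda _ fun i => (hg i).comp (measurable_coordPath i)),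
    Measure.map_map hsw (measurable_pi_lambda _ fun i => measurable_coordPath i)] at h4
  exact h4

theorem future_vec [Nonempty ι] (hW : IsBrownianVec W) (s : ℝ≥0) :
    IndepFun (fun w : C(ℝ≥0, ι → ℝ) => ev (shift s w)) (restr s) W := by
  have hWp := isProb hW
  let a : ι → (ℝ≥0 → ℝ) → ℝ≥0 → ℝ := fun _ f t => f (s + t) - f s
  let b : ι → (ℝ≥0 → ℝ) → Iic s → ℝ := fun _ f t => f t
  have ha : ∀ i, Measurable (a i) := fun i => measurable_pi_lambda _ fun t =>
    (measurable_pi_apply _).sub (measurable_pi_apply _)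
  have hb : ∀ i, Measurable (b i) := fun i => measurable_pi_lambda _ fun t =>
    measurable_pi_apply _
  have hA : ∀ i, Measurable (fun w : C(ℝ≥0, ι → ℝ) => a i (coordPath i w)) := fun i =>
    (ha i).comp (measurable_coordPath i)
  have hB : ∀ i, Measurable (fun w : C(ℝ≥0, ι → ℝ) => b i (coordPath i w)) := fun i =>
    (hb i).comp (measurable_coordPath i)
  have hAB : ∀ i, IndepFun (fun w : C(ℝ≥0, ι → ℝ) => a i (coordPath i w))
      (fun w => b i (coordPath i w)) W := fun i => (isPre hW i).indepFun_shift s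
  -- the joint law of all the pairs
  have h1 := (iIndepFun_iff_map_fun_eq_pi_map
    (fun i => (((ha i).prodMk (hb i)).comp (measurable_coordPath i)).aemeasurable)).1
    (hW.2.comp (fun i f => (a i f, b i f)) (fun i => (ha i).prodMk (hb i)))
  have h2 : ∀ i, W.map ((fun f => (a i f, b i f)) ∘ coordPath i) =
      (W.map fun w => a i (coordPath i w)).prod (W.map fun w => b i (coordPath i w)) := fun i =>
    (indepFun_iff_map_prod_eq_prod_map_map (hA i).aemeasurable (hB i).aemeasurable).1 (hAB i)
  simp only [h2] at h1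
  have hpa : ∀ i, IsProbabilityMeasure (W.map fun w => a i (coordPath i w)) := fun i =>
    Measure.isProbabilityMeasure_map (hA i).aemeasurable
  have hpb : ∀ i, IsProbabilityMeasure (W.map fun w => b i (coordPath i w)) := fun i =>
    Measure.isProbabilityMeasure_map (hB i).aemeasurable
  have hindA := (iIndepFun_iff_map_fun_eq_pi_map (fun i => (hA i).aemeasurable)).1
    (hW.2.comp a ha)
  have hindB := (iIndepFun_iff_map_fun_eq_pi_map (fun i => (hB i).aemeasurable)).1
    (hW.2.comp b hb)
  have h3 := (measurePreserving_arrowProdEquivProdArrow (ℝ≥0 → ℝ) (Iic s → ℝ) ι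
    (fun i => W.map fun w => a i (coordPath i w))
    (fun i => W.map fun w => b i (coordPath i w))).map_eq
  rw [← h1] at h3
  have hmA : Measurable (fun (w : C(ℝ≥0, ι → ℝ)) i => a i (coordPath i w)) :=
    measurable_pi_lambda _ hA
  have hmB : Measurable (fun (w : C(ℝ≥0, ι → ℝ)) i => b i (coordPath i w)) :=
    measurable_pi_lambda _ hB
  rw [Measure.map_map (MeasurableEquiv.measurable _) (measurable_pi_lambda _ fun i =>
    ((ha i).prodMk (hb i)).comp (measurable_coordPath i))] at h3
  have h4 : IndepFun (fun (w : C(ℝ≥0, ι → ℝ)) i => a i (coordPath i w))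
      (fun (w : C(ℝ≥0, ι → ℝ)) i => b i (coordPath i w)) W := by
    rw [indepFun_iff_map_prod_eq_prod_map_map hmA.aemeasurable hmB.aemeasurable]
    have h5 : W.map (fun (w : C(ℝ≥0, ι → ℝ)) i => a i (coordPath i w)) =
        Measure.pi fun i => W.map fun w => a i (coordPath i w) := hindA
    have h6 : W.map (fun (w : C(ℝ≥0, ι → ℝ)) i => b i (coordPath i w)) =
        Measure.pi fun i => W.map fun w => b i (coordPath i w) := hindB
    rw [h5, h6]
    exact h3
  have m1 : Measurable fun (f : ι → ℝ≥0 → ℝ) (t : ℝ≥0) (i : ι) => f i t :=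
    measurable_pi_lambda _ fun t => measurable_pi_lambda _ fun i =>
      (measurable_pi_apply t).comp (measurable_pi_apply i)
  have m2 : Measurable fun (f : ι → Iic s → ℝ) (t : Iic s) (i : ι) => f i t :=
    measurable_pi_lambda _ fun t => measurable_pi_lambda _ fun i =>
      (measurable_pi_apply t).comp (measurable_pi_apply i)
  exact h4.comp m1 m2

/-- The shift is ergodic for the Brownian motion in `ℝ^ι`. -/
theorem ergodic_vec [Nonempty ι] (hW : IsBrownianVec W) : Ergodic (shift 1) W := by
  have hWp := isProb hW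
  exact ergodic_of_indep (map_shift_vec hW 1) fun n => future_vec hW _

lemma ae_zero_vec [Nonempty ι] (hW : IsBrownianVec W) : ∀ᵐ w ∂W, w 0 = 0 := by
  have h1 : ∀ i, ∀ᵐ w ∂W, w 0 i = 0 := fun i => (isPre hW i).eval_zero_ae_eq_zero
  rw [← ae_all_iff] at h1
  filter_upwards [h1] with w hw
  funext i
  exact hw i

end brownian

section real

/-- `W` is the Wiener measure: under `W` the coordinate process is a Brownian motion. -/
def IsWiener (W : Measure C(ℝ≥0, ℝ)) : Prop :=
  IsBrownianReal (fun (t : ℝ≥0) (w : C(ℝ≥0, ℝ)) => w t) W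

variable {W : Measure C(ℝ≥0, ℝ)}

theorem map_shift_real (hW : IsWiener W) (s : ℝ≥0) : W.map (shift s) = W := by
  have hWp : IsProbabilityMeasure W := hW.isGaussianProcess.isProbabilityMeasure
  apply eq_of_map_ev
  rw [Measure.map_map measurable_ev (measurable_shift s)]
  have e1 : IsProjectiveLimit (W.map (ev ∘ shift s)) BrownianReal.projectiveFamily := by
    intro I
    rw [Measure.map_map (by fun_prop) (measurable_ev.comp (measurable_shift s))]
    exact ((hW.toIsPreBrownianReal.shift s).hasLaw I).map_eq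
  have e2 : IsProjectiveLimit (W.map ev) BrownianReal.projectiveFamily := by
    intro I
    rw [Measure.map_map (by fun_prop) measurable_ev]
    exact (hW.hasLaw I).map_eq
  exact e1.unique e2

theorem ergodic_real (hW : IsWiener W) : Ergodic (shift 1) W := by
  have hWp : IsProbabilityMeasure W := hW.isGaussianProcess.isProbabilityMeasure
  exact ergodic_of_indep (map_shift_real hW 1) fun n =>
    hW.toIsPreBrownianReal.indepFun_shift ((n + 1 : ℕ) : ℝ≥0)

end real

end Pool.Agent.KS6_56.PP
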