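import Pool.Agent.KS6_56.PP.Flow
import Pool.Agent.KS6_56.PP.Markov

/-! Putting a random piece in front of a process. -/

namespace Pool.Agent.KS6_56.PP

open MeasureTheory ProbabilityTheory Filter Topology Set
open scoped ENNReal NNReal

universe u

/-- The path obtained by putting the piece `Y` on `[0, T]` in front of the path `x`. -/
noncomputable def concat {E : Type u} [Add E] (T : ℝ≥0) (Y x : ℝ≥0 → E) (t : ℝ≥0) : E :=
  if t ≤ T then Y t else Y T + x (t - T)

/-- The process `X`, defined on `(Ω, P)`, admits a random piece `(T, Y)`, defined on an enlargement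
`(Ω', P')` of `(Ω, P)`, such that putting this piece in front of `X` gives a process `Z` with the
law `W`. -/
def AdmitsPiece {E : Type u} [NormedAddCommGroup E] {Ω : Type u} [MeasurableSpace Ω]
    (P : Measure Ω) (X : Ω → C(ℝ≥0, E)) (W : Measure C(ℝ≥0, E)) : Prop :=
  ∃ (Ω' : Type u) (_ : MeasurableSpace Ω') (P' : Measure Ω') (π : Ω' → Ω),
    IsProbabilityMeasure P' ∧ MeasurePreserving π P' P ∧
    ∃ (T : Ω' → ℝ≥0) (Y Z : Ω' → C(ℝ≥0, E)), Measurable T ∧ Measurable Y ∧ Measurable Z ∧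
      (∀ ω, Y ω 0 = 0) ∧ (∀ᵐ ω ∂P', ∀ t, Z ω t = concat (T ω) (Y ω) (X (π ω)) t) ∧
      P'.map Z = W

variable {E : Type u} [NormedAddCommGroup E] [MeasurableSpace E] [BorelSpace E]
  [SecondCountableTopology E] {W : Measure C(ℝ≥0, E)}

lemma measurable_flow : Measurable fun p : ℝ≥0 × C(ℝ≥0, E) => shift p.1 p.2 := by
  refine measurable_path fun t => ?_
  have h1 : Measurable fun p : ℝ≥0 × C(ℝ≥0, E) => p.2 p.1 :=
    (measurable_uncurry_of_continuous_of_measurable (u := fun (s : ℝ≥0) (w : C(ℝ≥0, E)) => w s)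
      (fun w => w.continuous) (fun s => measurable_eval s))
  have h2 : Measurable fun p : ℝ≥0 × C(ℝ≥0, E) => p.2 (p.1 + t) :=
    h1.comp ((measurable_fst.add measurable_const).prodMk measurable_snd)
  exact h2.sub h1

/-- The shifts are an ergodic semiflow. -/
lemma isFlow (hinv : ∀ s, W.map (shift s) = W)
    (herg : ∀ A, MeasurableSet A → (∀ s, shift s ⁻¹' A = A) → W A = 0 ∨ W A = 1) :
    IsFlow (shift : ℝ≥0 → C(ℝ≥0, E) → C(ℝ≥0, E)) W where
  meas := measurable_flow
  semi s t z := shift_shift s t z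
  inv := hinv
  erg := herg

variable [CompleteSpace E]

/-- **Sufficiency.** -/
theorem admits [IsProbabilityMeasure W] (h0 : ∀ᵐ w ∂W, w 0 = 0) (hinv : ∀ s, W.map (shift s) = W)
    (herg : ∀ A, MeasurableSet A → (∀ s, shift s ⁻¹' A = A) → W A = 0 ∨ W A = 1)
    {Ω : Type u} [MeasurableSpace Ω] (P : Measure Ω) [IsProbabilityMeasure P]
    (X : Ω → C(ℝ≥0, E)) (hX : Measurable X) (hac : P.map X ≪ W) : AdmitsPiece P X W := by
  have hfl := isFlow hinv herg
  have hPX : IsProbabilityMeasure (P.map X) := Measure.isProbabilityMeasure_map hX.aemeasurable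
  set D : C(ℝ≥0, E) → ℝ≥0∞ := (P.map X).rnDeriv W with hD
  have hDm : Measurable D := Measure.measurable_rnDeriv _ _
  have hDW : W.withDensity D = P.map X := Measure.withDensity_rnDeriv_eq _ _ hac
  have hint : ∫⁻ z, D z ∂W = 1 := by
    have : (P.map X) univ = 1 := measure_univ
    rw [← hDW, withDensity_apply _ MeasurableSet.univ, Measure.restrict_univ] at this
    exact this
  obtain ⟨ν, hν1, hν2⟩ := flow_coupling hfl hDm hint
  rw [hDW] at hν2
  have hνp : IsProbabilityMeasure ν := by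
    refine ⟨?_⟩
    have : ν.map Prod.fst univ = 1 := by rw [hν1]; exact measure_univ
    rwa [Measure.map_apply measurable_fst MeasurableSet.univ, preimage_univ] at this
  have hfm : Measurable fun q : C(ℝ≥0, E) × ℝ≥0 => shift q.2 q.1 :=
    measurable_flow.comp (measurable_snd.prodMk measurable_fst)
  -- the joint law of the shifted path, the path and the time
  let ρ : Measure (C(ℝ≥0, E) × (C(ℝ≥0, E) × ℝ≥0)) := ν.map fun q => (shift q.2 q.1, q)
  have hρm : Measurable fun q : C(ℝ≥0, E) × ℝ≥0 => (shift q.2 q.1, q) :=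
    hfm.prodMk measurable_id
  have hρp : IsProbabilityMeasure ρ := Measure.isProbabilityMeasure_map hρm.aemeasurable
  have hρfst : ρ.fst = P.map X := by
    rw [Measure.fst, Measure.map_map measurable_fst hρm]
    exact hν2
  have hρsnd : ρ.map Prod.snd = ν := by
    rw [Measure.map_map measurable_snd hρm]
    exact Measure.map_id
  let κ : Kernel Ω (C(ℝ≥0, E) × ℝ≥0) := ρ.condKernel.comap X hX
  let P' : Measure (Ω × (C(ℝ≥0, E) × ℝ≥0)) := P ⊗ₘ κ
  have hmXm : Measurable (Prod.map X (id : C(ℝ≥0, E) × ℝ≥0 → C(ℝ≥0, E) × ℝ≥0)) :=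
    hX.prodMap measurable_id
  have hP'ρ : P'.map (Prod.map X id) = ρ := by
    ext B hB
    rw [Measure.map_apply hmXm hB, Measure.compProd_apply (hmXm hB)]
    have h1 : ρ = ρ.fst ⊗ₘ ρ.condKernel := (ρ.disintegrate ρ.condKernel).symm
    conv_rhs => rw [h1, hρfst, Measure.compProd_apply hB]
    rw [lintegral_map (Kernel.measurable_kernel_prodMk_left hB) hX]
    rfl
  have hπ : MeasurePreserving (Prod.fst : Ω × (C(ℝ≥0, E) × ℝ≥0) → Ω) P' P := by
    refine ⟨measurable_fst, ?_⟩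
    exact Measure.fst_compProd P κ
  have hZlaw : P'.map (fun ω => ω.2.1) = W := by
    have h1 : (fun ω : Ω × (C(ℝ≥0, E) × ℝ≥0) => ω.2.1) =
        (fun p : C(ℝ≥0, E) × (C(ℝ≥0, E) × ℝ≥0) => p.2.1) ∘ Prod.map X id := rfl
    have h2 : Measurable fun p : C(ℝ≥0, E) × (C(ℝ≥0, E) × ℝ≥0) => p.2.1 :=
      measurable_fst.comp measurable_snd
    rw [h1, ← Measure.map_map h2 hmXm, hP'ρ]
    have h3 : (fun p : C(ℝ≥0, E) × (C(ℝ≥0, E) × ℝ≥0) => p.2.1) = Prod.fst ∘ Prod.snd := rfl
    rw [h3, ← Measure.map_map measurable_fst measurable_snd, hρsnd, hν1]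
  refine ⟨Ω × (C(ℝ≥0, E) × ℝ≥0), inferInstance, P', Prod.fst, inferInstance, hπ,
    fun ω => ω.2.2, fun ω => shift 0 ω.2.1, fun ω => ω.2.1, measurable_snd.comp measurable_snd,
    (measurable_shift 0).comp (measurable_fst.comp measurable_snd),
    measurable_fst.comp measurable_snd, fun ω => by simp, ?_, hZlaw⟩
  -- the new path is the concatenation
  have hZ0 : ∀ᵐ ω ∂P', (ω.2.1 : C(ℝ≥0, E)) 0 = 0 := by
    have h1 : ∀ᵐ z ∂(P'.map (fun ω => ω.2.1)), z 0 = 0 := by rw [hZlaw]; exact h0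
    exact ae_of_ae_map (measurable_fst.comp measurable_snd).aemeasurable h1
  have hXeq : ∀ᵐ ω ∂P', X ω.1 = shift ω.2.2 ω.2.1 := by
    have hset : MeasurableSet {p : C(ℝ≥0, E) × (C(ℝ≥0, E) × ℝ≥0) | p.1 = shift p.2.2 p.2.1} :=
      measurableSet_eq_fun measurable_fst (hfm.comp measurable_snd)
    have h1 : ∀ᵐ p ∂ρ, p.1 = shift p.2.2 p.2.1 := by
      have : ∀ᵐ q ∂ν, (shift q.2 q.1, q).1 = shift (shift q.2 q.1, q).2.2 (shift q.2 q.1, q).2.1 :=
        ae_of_all _ fun q => rfl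
      exact (ae_map_iff hρm.aemeasurable hset).2 this
    rw [← hP'ρ] at h1
    exact ae_of_ae_map hmXm.aemeasurable h1
  filter_upwards [hZ0, hXeq] with ω h1 h2 t
  rw [concat]
  split_ifs with h3
  · simp [h1]
  · rw [h2]
    have h4 : ω.2.2 + (t - ω.2.2) = t := add_tsub_cancel_of_le (not_le.1 h3).le
    simp [h1, h4]

omit [CompleteSpace E] in
/-- **Necessity.** -/
theorem trivial_of_admits [IsProbabilityMeasure W] (h0 : ∀ᵐ w ∂W, w 0 = 0)
    (hadm : ∀ (Ω : Type u) [MeasurableSpace Ω] (P : Measure Ω) [IsProbabilityMeasure P]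
      (X : Ω → C(ℝ≥0, E)), Measurable X → P.map X ≪ W → AdmitsPiece P X W)
    (A : Set C(ℝ≥0, E)) (hA : MeasurableSet A) (hinvA : ∀ s, shift s ⁻¹' A = A) :
    W A = 0 ∨ W A = 1 := by
  by_cases hW : W A = 0
  · exact Or.inl hW
  right
  have hP : IsProbabilityMeasure (ProbabilityTheory.cond W A) := cond_isProbabilityMeasure hW
  have hac : ProbabilityTheory.cond W A ≪ W := cond_absolutelyContinuous
  obtain ⟨Ω', _, P', π, hP', hπ, T, Y, Z, hT, hY, hZ, hY0, hconc, hlaw⟩ :=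
    hadm C(ℝ≥0, E) (ProbabilityTheory.cond W A) id measurable_id (by rw [Measure.map_id]; exact hac)
  have h1 : ∀ᵐ x ∂(ProbabilityTheory.cond W A), x ∈ A := by
    rw [ae_iff]
    change (ProbabilityTheory.cond W A) Aᶜ = 0
    rw [cond_apply hA]
    simp
  have h2 : ∀ᵐ x ∂(ProbabilityTheory.cond W A), x 0 = 0 := hac.ae_le h0
  have h3 : ∀ᵐ ω ∂P', π ω ∈ A := hπ.quasiMeasurePreserving.ae h1
  have h4 : ∀ᵐ ω ∂P', (π ω) 0 = 0 := hπ.quasiMeasurePreserving.ae h2
  have h5 : ∀ᵐ ω ∂P', Z ω ∈ A := by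
    filter_upwards [h3, h4, hconc] with ω a1 a2 a3
    have h6 : shift (T ω) (Z ω) = π ω := by
      ext t
      rw [shift_apply, a3, a3, concat, concat, if_pos le_rfl]
      by_cases ht : t = 0
      · subst ht
        simp [a2]
      · have h7 : ¬ (T ω + t ≤ T ω) := by
          rw [not_le]
          exact lt_add_of_pos_right _ (pos_iff_ne_zero.2 ht)
        rw [if_neg h7]
        simp
    have h8 : Z ω ∈ shift (T ω) ⁻¹' A := by
      change shift (T ω) (Z ω) ∈ A
      rw [h6]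
      exact a1
    rwa [hinvA] at h8
  rw [← hlaw, Measure.map_apply hZ hA]
  have h9 : P' (Z ⁻¹' A)ᶜ = 0 := h5
  exact (prob_compl_eq_zero_iff (hZ hA)).1 h9

end Pool.Agent.KS6_56.PP
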