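import Mathlib

/-! The path space of a separable normed group, and the shifts. -/

namespace Pool.Agent.KS6_56.PP

open MeasureTheory ProbabilityTheory Filter Topology Set
open scoped ENNReal NNReal

variable {E : Type*} [NormedAddCommGroup E]

/-- The Borel sigma-algebra of locally uniform convergence on the path space. -/
instance pathMeasurableSpace : MeasurableSpace C(ℝ≥0, E) := borel _

instance pathBorelSpace : BorelSpace C(ℝ≥0, E) := ⟨rfl⟩

/-- all evaluations at once -/
def ev (w : C(ℝ≥0, E)) (t : ℝ≥0) : E := w t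

variable [MeasurableSpace E] [BorelSpace E]

lemma measurable_eval (t : ℝ≥0) : Measurable (fun w : C(ℝ≥0, E) => w t) :=
  (continuous_eval_const t).measurable

lemma measurable_ev :  Measurable (ev : C(ℝ≥0, E) → ℝ≥0 → E) := measurable_pi_lambda _ measurable_eval

lemma mapsTo_eq {K : Set ℝ≥0} (hK : IsCompact K) {U : Set E} (hU : IsOpen U) :
    ∃ c : Set ℝ≥0, c.Countable ∧ ∃ F : ℕ → Set E, (∀ n, IsClosed (F n)) ∧
    {w : C(ℝ≥0, E) | MapsTo w K U} = ⋃ n, ⋂ t ∈ c, {w : C(ℝ≥0, E) | w t ∈ F n} := by
  obtain ⟨c, hcK, hc, hKc⟩ :=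
    (TopologicalSpace.IsSeparable.of_separableSpace K).exists_countable_dense_subset
  refine ⟨c, hc, fun n => {x | ((n : ℝ≥0∞) + 1)⁻¹ ≤ Metric.infEDist x Uᶜ}, fun n => ?_, ?_⟩
  · exact isClosed_le continuous_const Metric.continuous_infEDist
  · ext w
    simp only [mem_ofPred_eq, mem_iUnion, mem_iInter]
    constructor
    · intro h
      have hc' : IsCompact (w '' K) := hK.image w.continuous
      have hsub : w '' K ⊆ ⋃ n : ℕ, {x | ((n : ℝ≥0∞) + 1)⁻¹ < Metric.infEDist x Uᶜ} := by
        rintro x ⟨t, ht, rfl⟩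
        have hx : w t ∈ U := h ht
        have hpos : 0 < Metric.infEDist (w t) Uᶜ := by
          rw [pos_iff_ne_zero]
          intro h0
          have := Metric.mem_closure_iff_infEDist_zero.2 h0
          rw [hU.isClosed_compl.closure_eq] at this
          exact this hx
        obtain ⟨n, hn⟩ := ENNReal.exists_inv_nat_lt hpos.ne'
        refine mem_iUnion.2 ⟨n, lt_of_le_of_lt ?_ hn⟩
        exact ENNReal.inv_le_inv.2 le_self_add
      obtain ⟨n, hn⟩ := hc'.elim_directed_cover
        (fun n : ℕ => {x | ((n : ℝ≥0∞) + 1)⁻¹ < Metric.infEDist x Uᶜ})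
        (fun n => isOpen_lt continuous_const Metric.continuous_infEDist) hsub
        (by
          apply Monotone.directed_le
          intro a b hab x hx
          simp only [mem_ofPred_eq] at hx ⊢
          refine lt_of_le_of_lt ?_ hx
          apply ENNReal.inv_le_inv.2
          gcongr)
      refine ⟨n, fun t ht => ?_⟩
      exact (hn (mem_image_of_mem _ (hcK ht))).le
    · rintro ⟨n, hn⟩ t ht
      have hcl : IsClosed {s : ℝ≥0 | ((n : ℝ≥0∞) + 1)⁻¹ ≤ Metric.infEDist (w s) Uᶜ} :=
        isClosed_le continuous_const (Metric.continuous_infEDist.comp w.continuous)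
      have h1 : closure c ⊆ {s : ℝ≥0 | ((n : ℝ≥0∞) + 1)⁻¹ ≤ Metric.infEDist (w s) Uᶜ} :=
        closure_minimal (fun s hs => hn s hs) hcl
      have h2 : ((n : ℝ≥0∞) + 1)⁻¹ ≤ Metric.infEDist (w t) Uᶜ := h1 (hKc ht)
      by_contra hne
      have h3 : Metric.infEDist (w t) Uᶜ = 0 := Metric.infEDist_zero_of_mem hne
      rw [h3] at h2
      have h4 : ((n : ℝ≥0∞) + 1)⁻¹ = 0 := le_antisymm h2 zero_le
      rw [ENNReal.inv_eq_zero] at h4
      exact absurd h4 (by finiteness)

variable [SecondCountableTopology E]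

theorem measurableSpace_eq_comap :
    (pathMeasurableSpace : MeasurableSpace C(ℝ≥0, E)) = MeasurableSpace.comap (ev : C(ℝ≥0, E) → ℝ≥0 → E) MeasurableSpace.pi := by
  apply le_antisymm
  · have h1 : (pathMeasurableSpace : MeasurableSpace C(ℝ≥0, E)) = MeasurableSpace.generateFrom
      (image2 (fun (K : Set ℝ≥0) (U : Set E) => {f : C(ℝ≥0, E) | MapsTo f K U})
        {K | IsCompact K} {U | IsOpen U}) :=
      borel_eq_generateFrom_of_subbasis ContinuousMap.compactOpen_eq
    rw [h1]
    apply MeasurableSpace.generateFrom_le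
    rintro _ ⟨K, hK, U, hU, rfl⟩
    obtain ⟨c, hc, F, hF, he⟩ := mapsTo_eq hK hU
    simp only
    rw [he]
    have hm : ∀ t, Measurable[MeasurableSpace.comap (ev : C(ℝ≥0, E) → ℝ≥0 → E) MeasurableSpace.pi]
        (fun w : C(ℝ≥0, E) => w t) := by
      intro t
      have : (fun w : C(ℝ≥0, E) => w t) = (fun f : ℝ≥0 → E => f t) ∘ ev := rfl
      rw [this]
      exact (measurable_pi_apply t).comp (comap_measurable ev)
    refine MeasurableSet.iUnion fun n => MeasurableSet.biInter hc fun t _ => ?_
    exact hm t (hF n).measurableSet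
  · exact measurable_iff_comap_le.1 measurable_ev

lemma measurable_path {α : Type*} [MeasurableSpace α] {f : α → C(ℝ≥0, E)}
    (h : ∀ t, Measurable (fun a => f a t)) : Measurable f := by
  have : Measurable (ev ∘ f) := measurable_pi_lambda _ h
  rw [measurable_iff_comap_le, measurableSpace_eq_comap, MeasurableSpace.comap_comp]
  exact measurable_iff_comap_le.1 this

/-- the increments after the time `s` -/
def shift (s : ℝ≥0) (w : C(ℝ≥0, E)) : C(ℝ≥0, E) :=
  ⟨fun t => w (s + t) - w s, by fun_prop⟩

omit [MeasurableSpace E] [BorelSpace E] [SecondCountableTopology E] in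
@[simp] lemma shift_apply (s : ℝ≥0) (w : C(ℝ≥0, E)) (t : ℝ≥0) :
    shift s w t = w (s + t) - w s := rfl

omit [MeasurableSpace E] [BorelSpace E] [SecondCountableTopology E] in
lemma shift_shift (s t : ℝ≥0) (w : C(ℝ≥0, E)) : shift t (shift s w) = shift (s + t) w := by
  ext r
  simp only [shift_apply]
  rw [add_assoc]
  abel

omit [MeasurableSpace E] [BorelSpace E] [SecondCountableTopology E] in
lemma iterate_shift (h : ℝ≥0) (n : ℕ) (w : C(ℝ≥0, E)) (hw : w 0 = 0) :
    (shift h)^[n] w = shift (n * h) w := by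
  induction n with
  | zero =>
    ext t
    simp [hw]
  | succ n ih =>
    rw [Function.iterate_succ_apply', ih, shift_shift]
    congr 1
    push_cast
    ring

lemma measurable_shift (s : ℝ≥0) :
    Measurable (shift s : C(ℝ≥0, E) → C(ℝ≥0, E)) :=
  measurable_path fun t => (measurable_eval (s + t)).sub (measurable_eval s)

end Pool.Agent.KS6_56.PP
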